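import Pool.Agent.Helper17.QD.Glue

/-!
# Project QD, glue: module PRE (change of marking)
-/

set_option autoImplicit false

open Filter Topology Matrix Set Metric MeasureTheory
open scoped ComplexConjugate ComplexOrder ENNReal

namespace Pool.Agent.Helper44.QL

open Pool.Agent.Helper17.QD Pool.Agent.Helper35.PM

theorem hPRE (hOPR : StOPR) (hIQP : StIQP) (hNMP : StNMP) : StPRE := by
  intro g _ φ U hU
  refine hOPR (SurfaceGroup g) (pre φ) (fun ρ h => hIQP _ φ ρ h) (hNMP _ φ).1 (hNMP _ φ).2 ?_ ?_ U hU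
  · rintro ρ σ ⟨B, hB⟩
    exact ⟨B, fun γ => hB (φ γ)⟩
  · intro c a b h γ i j
    exact h (φ γ) i j

end Pool.Agent.Helper44.QL
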